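import Mathlib
import Pool.Agent.H624R3.CP.Stmts

/-! Task INF of COVPROD. -/

set_option autoImplicit false

open MeasureTheory Metric Real Set

namespace Pool.Agent.H253MB.CP

open Pool.Agent.H624R3.CP

/-- the closed ball of radius `ρ` in dimension `n` -/
theorem vol_cb (n : ℕ) (x : E n) (ρ : ℝ) (hρ : 0 ≤ ρ) :
    volume (closedBall x ρ) = ENNReal.ofReal (ρ ^ n * vb n) := by
  rw [Measure.addHaar_closedBall' volume x hρ, finrank_euclideanSpace, Fintype.card_fin,
    ENNReal.ofReal_mul (by positivity)]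
  congr 1
  unfold vb
  rw [ENNReal.ofReal_toReal]
  exact measure_closedBall_lt_top.ne

/-- rearrangement -/
theorem rearr (n s : ℕ) (hn : 1 ≤ n) (q : E n) (ρ : ℝ) (hρ : 0 < ρ) :
    ∫⁻ y in closedBall q ρ, ENNReal.ofReal ((‖y‖ ^ s)⁻¹) ≤
      ∫⁻ y in closedBall (0 : E n) ρ, ENNReal.ofReal ((‖y‖ ^ s)⁻¹) := by
  set f : E n → ENNReal := fun y => ENNReal.ofReal ((‖y‖ ^ s)⁻¹) with hf
  set A : Set (E n) := closedBall q ρ with hA
  set B : Set (E n) := closedBall (0 : E n) ρ with hB
  set c : ENNReal := ENNReal.ofReal ((ρ ^ s)⁻¹) with hc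
  have hAm : MeasurableSet A := measurableSet_closedBall
  have hBm : MeasurableSet B := measurableSet_closedBall
  have hAB : volume A = volume B := by
    rw [hA, hB, vol_cb n q ρ hρ.le, vol_cb n 0 ρ hρ.le]
  have hfin : volume (A ∩ B) ≠ ⊤ :=
    ((measure_mono inter_subset_left).trans_lt measure_closedBall_lt_top).ne
  have hdiff : volume (A \ B) = volume (B \ A) := by
    have h1 := measure_inter_add_sdiff (μ := volume) A hBm
    have h2 := measure_inter_add_sdiff (μ := volume) B hAm
    rw [inter_comm B A] at h2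
    have h3 : volume (A ∩ B) + volume (A \ B) = volume (A ∩ B) + volume (B \ A) := by
      rw [h1, h2, hAB]
    exact (ENNReal.add_right_inj hfin).mp h3
  have hup : ∫⁻ y in A \ B, f y ≤ c * volume (A \ B) := by
    rw [← setLIntegral_const]
    refine setLIntegral_mono' (hAm.diff hBm) (fun y hy => ?_)
    apply ENNReal.ofReal_le_ofReal
    have hy2 : ρ < ‖y‖ := by
      have := hy.2
      rw [hB, mem_closedBall, dist_zero_right, not_le] at this
      exact this
    exact inv_anti₀ (by positivity) (pow_le_pow_left₀ hρ.le hy2.le s)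
  have : Nonempty (Fin n) := ⟨⟨0, hn⟩⟩
  have hlow : c * volume (B \ A) ≤ ∫⁻ y in B \ A, f y := by
    rw [← setLIntegral_const]
    refine lintegral_mono_ae ?_
    have hne : ∀ᵐ y : E n ∂volume, y ≠ 0 := by
      rw [ae_iff]
      simp
    filter_upwards [ae_restrict_mem (hBm.diff hAm), ae_restrict_of_ae hne] with y hy hy0
    apply ENNReal.ofReal_le_ofReal
    have hy2 : ‖y‖ ≤ ρ := by
      have := hy.1
      rwa [hB, mem_closedBall, dist_zero_right] at this
    have hy3 : 0 < ‖y‖ := norm_pos_iff.mpr hy0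
    exact inv_anti₀ (by positivity) (pow_le_pow_left₀ hy3.le hy2 s)
  calc ∫⁻ y in A, f y = (∫⁻ y in A ∩ B, f y) + ∫⁻ y in A \ B, f y :=
        (lintegral_inter_add_sdiff (μ := volume) f A hBm).symm
    _ ≤ (∫⁻ y in A ∩ B, f y) + c * volume (A \ B) := by gcongr
    _ = (∫⁻ y in B ∩ A, f y) + c * volume (B \ A) := by rw [hdiff, inter_comm]
    _ ≤ (∫⁻ y in B ∩ A, f y) + ∫⁻ y in B \ A, f y := by gcongr
    _ = ∫⁻ y in B, f y := lintegral_inter_add_sdiff (μ := volume) f B hAm

/-- the integral over the centred ball -/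
theorem polar (n s : ℕ) (hs : s < n) (ρ : ℝ) (hρ : 0 < ρ) :
    ∫⁻ y in closedBall (0 : E n) ρ, ENNReal.ofReal ((‖y‖ ^ s)⁻¹) ≤
      ENNReal.ofReal (n * vb n * ρ ^ (n - s)) := by
  have : Nonempty (Fin n) := ⟨⟨0, by omega⟩⟩
  set f : ℝ → ℝ := (Iic ρ).indicator (fun t => (t ^ s)⁻¹) with hf
  have hf0 : ∀ t, 0 ≤ t → 0 ≤ f t := by
    intro t ht
    simp only [hf, indicator]
    split_ifs <;> positivity
  have hfn : Module.finrank ℝ (E n) = n := by simp
  have e1 : ∀ t ∈ Ioi (0 : ℝ), t ^ (Module.finrank ℝ (E n) - 1) • f t =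
      (Ioc 0 ρ).indicator (fun t => t ^ (n - 1 - s)) t := by
    intro t ht
    have ht0 : 0 < t := ht
    rw [hfn]
    simp only [hf, indicator, mem_Iic, mem_Ioc, smul_eq_mul]
    by_cases h : t ≤ ρ
    · simp only [h, ht0, and_self, if_true]
      rw [pow_sub₀ t ht0.ne' (show s ≤ n - 1 by omega)]
    · simp only [h, and_false, if_false, mul_zero]
  have hint0 : IntegrableOn (fun t : ℝ => t ^ (n - 1 - s)) (Ioc 0 ρ) := by
    exact (continuous_pow (n - 1 - s)).integrableOn_Ioc
  have hint1 : IntegrableOn (fun y : ℝ => y ^ (Module.finrank ℝ (E n) - 1) • f y) (Ioi 0) := by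
    rw [integrableOn_congr_fun e1 measurableSet_Ioi]
    exact (hint0.integrable_indicator measurableSet_Ioc).integrableOn
  have hint : Integrable (fun y : E n => f ‖y‖) volume :=
    (integrable_fun_norm_addHaar volume).mpr hint1
  have h1 : ∫⁻ y in closedBall (0 : E n) ρ, ENNReal.ofReal ((‖y‖ ^ s)⁻¹) =
      ∫⁻ y : E n, ENNReal.ofReal (f ‖y‖) := by
    rw [← lintegral_indicator measurableSet_closedBall]
    refine lintegral_congr (fun y => ?_)
    simp only [hf, indicator, mem_closedBall, dist_zero_right, mem_Iic]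
    split_ifs <;> simp
  rw [h1, ← ofReal_integral_eq_lintegral_ofReal hint (Filter.Eventually.of_forall fun y => hf0 _ (norm_nonneg y))]
  apply ENNReal.ofReal_le_ofReal
  rw [integral_fun_norm_addHaar volume f, setIntegral_congr_fun measurableSet_Ioi e1, hfn]
  have h2 : ∫ t in Ioi (0 : ℝ), (Ioc 0 ρ).indicator (fun t => t ^ (n - 1 - s)) t =
      ρ ^ (n - s) / ((n - 1 - s : ℕ) + 1) := by
    rw [setIntegral_indicator measurableSet_Ioc]
    have : Ioi (0 : ℝ) ∩ Ioc 0 ρ = Ioc 0 ρ := by
      ext t; simp only [mem_inter_iff, mem_Ioi, mem_Ioc]; tauto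
    rw [this, ← intervalIntegral.integral_of_le hρ.le, integral_pow]
    have h3 : n - 1 - s + 1 = n - s := by omega
    rw [h3, zero_pow (by omega), sub_zero]
  rw [h2]
  have h4 : (volume : Measure (E n)).real (ball 0 1) = vb n := by
    unfold vb Measure.real
    rw [Measure.addHaar_unitClosedBall_eq_addHaar_unitBall]
  rw [h4, nsmul_eq_mul, smul_eq_mul, mul_assoc]
  have hv : 0 ≤ vb n := ENNReal.toReal_nonneg
  apply mul_le_mul_of_nonneg_left _ (by positivity)
  apply mul_le_mul_of_nonneg_left _ hv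
  apply div_le_self (by positivity)
  have : (0 : ℝ) ≤ ((n - 1 - s : ℕ) : ℝ) := Nat.cast_nonneg _
  linarith

/-- distance to a subspace -/
theorem infDist_eq {d : ℕ} (F : Submodule ℝ (E d)) (v : E d) :
    infDist v (F : Set (E d)) = ‖Fᗮ.orthogonalProjectionOnto v‖ := by
  have hne : (F : Set (E d)).Nonempty := ⟨0, F.zero_mem⟩
  apply le_antisymm
  · have h1 : infDist v (F : Set (E d)) ≤ dist v (F.starProjection v) :=
      infDist_le_dist_of_mem (F.starProjection_apply_mem v)
    refine h1.trans (le_of_eq ?_)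
    rw [dist_eq_norm]
    have h2 : v - F.starProjection v = Fᗮ.starProjection v := by
      rw [sub_eq_iff_eq_add, add_comm]
      exact (F.starProjection_add_starProjection_orthogonal v).symm
    rw [h2]
    rfl
  · rw [le_infDist hne]
    intro w hw
    have h3 : Fᗮ.orthogonalProjectionOnto w = 0 := by
      rw [Submodule.orthogonalProjectionOnto_eq_zero_iff]
      exact Submodule.le_orthogonal_orthogonal F hw
    have h4 : Fᗮ.orthogonalProjectionOnto v = Fᗮ.orthogonalProjectionOnto (v - w) := by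
      rw [map_sub, h3, sub_zero]
    rw [h4, dist_eq_norm]
    exact Fᗮ.norm_orthogonalProjectionOnto_apply_le _

/-- decomposition of the integral -/
theorem decomp {d m n s : ℕ} (F : Submodule ℝ (E d)) (hm : Module.finrank ℝ F = m)
    (hn : Module.finrank ℝ Fᗮ = n) (p : E d) (ρ : ℝ) (hρ : 0 < ρ) :
    ∃ q : E n, ∫⁻ v in closedBall p ρ, ENNReal.ofReal ((infDist v (F : Set (E d)) ^ s)⁻¹) ≤
      ENNReal.ofReal (ρ ^ m * vb m) * ∫⁻ y in closedBall q ρ, ENNReal.ofReal ((‖y‖ ^ s)⁻¹) := by
  classical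
  -- isometries with the standard spaces
  let eF : F ≃ₗᵢ[ℝ] E m := ((stdOrthonormalBasis ℝ F).reindex (finCongr hm)).repr
  let eG : Fᗮ ≃ₗᵢ[ℝ] E n := ((stdOrthonormalBasis ℝ Fᗮ).reindex (finCongr hn)).repr
  set T : E d → F × Fᗮ := fun v => (F.orthogonalProjectionOnto v, Fᗮ.orthogonalProjectionOnto v) with hT
  have hTp : MeasurePreserving T (volume : Measure (E d)) (volume : Measure (F × Fᗮ)) := by
    have h := (WithLp.volume_preserving_ofLp F Fᗮ).comp F.orthogonalDecomposition.measurePreserving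
    have e : T = (WithLp.ofLp (p := 2) (V := F × Fᗮ)) ∘ F.orthogonalDecomposition := by
      funext v
      simp [hT]
    rw [e]
    exact h
  set pF : F := F.orthogonalProjectionOnto p with hpF
  set pG : Fᗮ := Fᗮ.orthogonalProjectionOnto p with hpG
  set g : F × Fᗮ → ENNReal := fun z => ENNReal.ofReal ((‖z.2‖ ^ s)⁻¹) with hg
  have hgm : Measurable g := by
    apply ENNReal.measurable_ofReal.comp
    exact ((measurable_snd.norm).pow_const s).inv
  have hS : MeasurableSet (closedBall pF ρ ×ˢ closedBall pG ρ : Set (F × Fᗮ)) :=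
    measurableSet_closedBall.prod measurableSet_closedBall
  refine ⟨eG pG, ?_⟩
  have h1 : ∫⁻ v in closedBall p ρ, ENNReal.ofReal ((infDist v (F : Set (E d)) ^ s)⁻¹) ≤
      ∫⁻ v in T ⁻¹' (closedBall pF ρ ×ˢ closedBall pG ρ), g (T v) := by
    have hsub : closedBall p ρ ⊆ T ⁻¹' (closedBall pF ρ ×ˢ closedBall pG ρ) := by
      intro v hv
      rw [mem_closedBall, dist_eq_norm] at hv
      rw [mem_preimage, mem_prod]
      constructor
      · rw [mem_closedBall, dist_eq_norm, hpF, ← map_sub]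
        exact (F.norm_orthogonalProjectionOnto_apply_le _).trans hv
      · rw [mem_closedBall, dist_eq_norm, hpG, ← map_sub]
        exact (Fᗮ.norm_orthogonalProjectionOnto_apply_le _).trans hv
    refine (lintegral_mono_set hsub).trans (le_of_eq ?_)
    refine lintegral_congr (fun v => ?_)
    simp only [hg, hT]
    rw [infDist_eq F v]
  refine h1.trans (le_of_eq ?_)
  rw [hTp.setLIntegral_comp_preimage hS hgm, Measure.volume_eq_prod, ← Measure.prod_restrict,
    lintegral_prod _ hgm.aemeasurable]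
  simp only [hg]
  rw [lintegral_const, Measure.restrict_apply_univ, mul_comm]
  congr 1
  · have h2 : (closedBall pF ρ : Set F) = eF ⁻¹' (closedBall (eF pF) ρ) := by
      ext z
      rw [mem_preimage, mem_closedBall, mem_closedBall, eF.dist_map]
    rw [h2, eF.measurePreserving.measure_preimage measurableSet_closedBall.nullMeasurableSet,
      vol_cb m _ ρ hρ.le]
  · have h3 : (closedBall pG ρ : Set Fᗮ) = eG ⁻¹' (closedBall (eG pG) ρ) := by
      ext z
      rw [mem_preimage, mem_closedBall, mem_closedBall, eG.dist_map]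
    have hfm : Measurable (fun y : E n => ENNReal.ofReal ((‖y‖ ^ s)⁻¹)) :=
      ENNReal.measurable_ofReal.comp ((measurable_norm.pow_const s).inv)
    rw [h3, ← eG.measurePreserving.setLIntegral_comp_preimage measurableSet_closedBall hfm]
    refine lintegral_congr (fun z => ?_)
    rw [eG.norm_map]

theorem taskINF : TaskINF := by
  intro d m s F p ρ hρ hm hms
  have hn : Module.finrank ℝ Fᗮ = d - m := by
    have h := F.finrank_add_finrank_orthogonal
    rw [finrank_euclideanSpace, Fintype.card_fin, hm] at h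
    omega
  obtain ⟨q, hq⟩ := decomp (s := s) F hm hn p ρ hρ
  have h1 := rearr (d - m) s (by omega) q ρ hρ
  have h2 := polar (d - m) s (by omega) ρ hρ
  have hvm : 0 ≤ vb m := ENNReal.toReal_nonneg
  have hvn : 0 ≤ vb (d - m) := ENNReal.toReal_nonneg
  calc ∫⁻ v in closedBall p ρ, ENNReal.ofReal ((infDist v (F : Set (E d)) ^ s)⁻¹)
      ≤ ENNReal.ofReal (ρ ^ m * vb m) * ∫⁻ y in closedBall q ρ, ENNReal.ofReal ((‖y‖ ^ s)⁻¹) := hq
    _ ≤ ENNReal.ofReal (ρ ^ m * vb m) *
        ENNReal.ofReal (((d - m : ℕ) : ℝ) * vb (d - m) * ρ ^ (d - m - s)) := by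
        gcongr
        exact h1.trans h2
    _ = ENNReal.ofReal ((ρ ^ m * vb m) * (((d - m : ℕ) : ℝ) * vb (d - m) * ρ ^ (d - m - s))) :=
        (ENNReal.ofReal_mul (by positivity)).symm
    _ ≤ ENNReal.ofReal (d * vb m * vb (d - m) * ρ ^ (d - s)) := by
        apply ENNReal.ofReal_le_ofReal
        have e : ρ ^ (d - s) = ρ ^ m * ρ ^ (d - m - s) := by
          rw [← pow_add]; congr 1; omega
        rw [e]
        have hc : ((d - m : ℕ) : ℝ) ≤ d := by exact_mod_cast Nat.sub_le d m
        calc (ρ ^ m * vb m) * (((d - m : ℕ) : ℝ) * vb (d - m) * ρ ^ (d - m - s))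
            = ((d - m : ℕ) : ℝ) * (vb m * vb (d - m) * (ρ ^ m * ρ ^ (d - m - s))) := by ring
          _ ≤ d * (vb m * vb (d - m) * (ρ ^ m * ρ ^ (d - m - s))) :=
              mul_le_mul_of_nonneg_right hc (by positivity)
          _ = d * vb m * vb (d - m) * (ρ ^ m * ρ ^ (d - m - s)) := by ring

end Pool.Agent.H253MB.CP
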